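import Pool.Agent.H246KN.GEN

/-!
# The growth constant of a knot type exists if and only if the ratios of consecutive counts converge
-/

set_option autoImplicit false

namespace Pool.Agent.Results.MP_b38231_co.LimitIffRatio

open Filter Topology KN

/-- For every class `Q` of knot types (in particular for a single knot type) the growth constant
exists if and only if the ratios of consecutive counts converge. -/
theorem result (Q : List Dir → Prop) (hQ : KClass Q) (hne : ∃ w, SAP w ∧ Q w) :
    (∃ L : ℝ, Tendsto (fun j : ℕ => (pq Q (2 * j)) ^ (1 / (2 * j : ℝ))) atTop (𝓝 L)) ↔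
      ∃ L : ℝ, Tendsto (fun j : ℕ => pq Q (2 * j + 2) / pq Q (2 * j)) atTop (𝓝 L) :=
  class_iff Q hQ hne

end Pool.Agent.Results.MP_b38231_co.LimitIffRatio
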